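import Mathlib
import Pool.Agent.V11117.QLib

/-!
A graph on 8 vertices with `q(G) = 2`, `mr₊(G) ≤ 3` and `MB(G) = 4`.
-/

namespace Pool.Agent.Results.MP_558aee_co.MBLarger

open Matrix Finset Pool.Agent.V11117.QLib

/-- The non-edges of the graph `G`. -/
def nonE (i j : Fin 8) : Bool :=
  ([(0, 1), (0, 2), (1, 2), (1, 3), (2, 3), (2, 4), (5, 6), (5, 7), (6, 7)] :
    List (Fin 8 × Fin 8)).any fun e => (e == (i, j)) || (e == (j, i))

/-- The graph `G` on `{0,…,7}`: all pairs are adjacent except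
`01, 02, 12, 13, 23, 24, 56, 57, 67`. -/
def G : SimpleGraph (Fin 8) where
  Adj i j := i ≠ j ∧ nonE i j = false
  symm := ⟨by decide +kernel⟩
  loopless := ⟨fun i h => h.1 rfl⟩

instance : DecidableRel G.Adj := fun i j => inferInstanceAs (Decidable (i ≠ j ∧ nonE i j = false))

/-- an integer matrix in `S(G)` with square `931² I` and trace `0` -/
def M : Matrix (Fin 8) (Fin 8) ℤ := Matrix.of
  ![![-193, 0, 0, -384, 450, 164, 166, -652],
  ![0, -769, 0, 0, 270, 300, 150, 300],
  ![0, 0, -481, 0, 0, -410, 680, 70],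
  ![-384, 0, 0, 31, -600, 498, 312, -114],
  ![450, 270, 0, -600, -31, 320, 160, 320],
  ![164, 300, -410, 498, 320, 481, 0, 0],
  ![166, 150, 680, 312, 160, 0, 481, 0],
  ![-652, 300, 70, -114, 320, 0, 0, 481]]

/-- vectors in `ℤ³` with orthogonality pattern given by the complement of `G` -/
def W : Matrix (Fin 8) (Fin 3) ℤ := Matrix.of
  ![![1, 0, 0], ![0, 1, 0], ![0, 0, 1], ![1, 0, 0], ![1, 2, 0], ![1, 2, 2], ![2, 1, -2],
    ![2, -2, 1]]

lemma M_sq : ∀ i j, ∑ k, M i k * M k j = if i = j then 931 * 931 else 0 := by decide +kernel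

lemma M_symm : ∀ i j, M i j = M j i := by decide +kernel

lemma M_trace : ∑ i, M i i = 0 := by decide +kernel

lemma M_pat : ∀ i j, i ≠ j → (M i j ≠ 0 ↔ G.Adj i j) := by decide +kernel

lemma W_pat : ∀ i j, i ≠ j → (∑ k, W i k * W j k ≠ 0 ↔ G.Adj i j) := by decide +kernel

lemma inS_M : InS G (M.map (Int.cast : ℤ → ℝ)) := by
  refine ⟨?_, fun i j hij => ?_⟩
  · ext i j
    simp only [Matrix.transpose_apply, Matrix.map_apply]
    rw [M_symm]
  · rw [Matrix.map_apply, Int.cast_ne_zero]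
    exact M_pat i j hij

lemma M_mul : (M.map (Int.cast : ℤ → ℝ)) * (M.map (Int.cast : ℤ → ℝ)) =
    ((931 : ℝ) * 931) • (1 : Matrix (Fin 8) (Fin 8) ℝ) := by
  ext i j
  rw [Matrix.mul_apply, Matrix.smul_apply, Matrix.one_apply]
  have h1 := congrArg (Int.cast : ℤ → ℝ) (M_sq i j)
  push_cast at h1
  simp only [Matrix.map_apply]
  rw [h1]
  split_ifs <;> norm_num

lemma q_G : q G = 2 :=
  q_eq_two (a := 0) (b := 3) (by decide +kernel) inS_M (by norm_num) M_mul

lemma achieves_four : Achieves G 4 := by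
  refine ⟨M.map (Int.cast : ℤ → ℝ), inS_M, 931, -931, by norm_num, ?_⟩
  refine charpoly_of_sq inS_M.1 (by norm_num) M_mul ?_ (by decide)
  rw [Matrix.trace]
  have h1 := congrArg (Int.cast : ℤ → ℝ) M_trace
  push_cast at h1
  simp only [Matrix.diag_apply, Matrix.map_apply]
  exact h1

lemma mrp_le : mrp G ≤ 3 := by
  set B : Matrix (Fin 8) (Fin 3) ℝ := W.map (Int.cast : ℤ → ℝ) with hB
  have hent : ∀ i j, (B * Bᵀ) i j = ((∑ k, W i k * W j k : ℤ) : ℝ) := by
    intro i j
    rw [Matrix.mul_apply]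
    push_cast
    rfl
  have hS : InS G (B * Bᵀ) := by
    refine ⟨?_, fun i j hij => ?_⟩
    · rw [Matrix.IsSymm, Matrix.transpose_mul, Matrix.transpose_transpose]
    · rw [hent, Int.cast_ne_zero]
      exact W_pat i j hij
  have hpsd : (B * Bᵀ).PosSemidef := by
    have := Matrix.posSemidef_self_mul_conjTranspose B
    rwa [Matrix.conjTranspose_eq_transpose_of_trivial] at this
  have hmem : (B * Bᵀ).rank ∈ {r | ∃ A : Matrix (Fin 8) (Fin 8) ℝ, InS G A ∧ A.PosSemidef ∧
      A.rank = r} := ⟨B * Bᵀ, hS, hpsd, rfl⟩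
  refine (Nat.sInf_le hmem).trans ?_
  calc (B * Bᵀ).rank ≤ B.rank := Matrix.rank_mul_le_left _ _
    _ ≤ Fintype.card (Fin 3) := Matrix.rank_le_card_width _
    _ = 3 := by simp

/-- No projection of rank at most three has pattern `G`. -/
lemma no_small {P : Matrix (Fin 8) (Fin 8) ℝ} (hP : InS G P) (hid : P * P = P)
    (hr : P.rank ≤ 3) : False := by
  have hs : ∀ i j, P i j = P j i := fun i j => hP.1.apply j i
  have z : ∀ i j, i ≠ j → ¬ G.Adj i j → P i j = 0 := by
    intro i j hij h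
    by_contra h0
    exact h ((hP.2 i j hij).1 h0)
  have nz : ∀ i j, G.Adj i j → P i j ≠ 0 := fun i j h => (hP.2 i j h.1).2 h
  have mul : ∀ i j, P i j = ∑ k, P i k * P k j := by
    intro i j
    conv_lhs => rw [← hid, Matrix.mul_apply]
  -- zero entries
  have z01 := z 0 1 (by decide) (by decide +kernel)
  have z02 := z 0 2 (by decide) (by decide +kernel)
  have z12 := z 1 2 (by decide) (by decide +kernel)
  have z13 := z 1 3 (by decide) (by decide +kernel)
  have z23 := z 2 3 (by decide) (by decide +kernel)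
  have z24 := z 2 4 (by decide) (by decide +kernel)
  have z56 := z 5 6 (by decide) (by decide +kernel)
  have z57 := z 5 7 (by decide) (by decide +kernel)
  have z67 := z 6 7 (by decide) (by decide +kernel)
  have n25 := nz 2 5 (by decide +kernel)
  have n26 := nz 2 6 (by decide +kernel)
  have n27 := nz 2 7 (by decide +kernel)
  have n04 := nz 0 4 (by decide +kernel)
  have n41 := nz 4 1 (by decide +kernel)
  -- the diagonal entries at 5, 6, 7
  have d5 : P 5 5 = 1 - P 2 2 := by
    have h := mul 2 5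
    simp only [Fin.sum_univ_eight] at h
    rw [hs 2 0, hs 2 1, z02, z12, z23, z24, hs 6 5, hs 7 5, z56, z57] at h
    have h2 : P 2 5 * (1 - P 2 2 - P 5 5) = 0 := by linear_combination h
    rcases mul_eq_zero.1 h2 with h3 | h3
    · exact absurd h3 n25
    · linarith
  have d6 : P 6 6 = 1 - P 2 2 := by
    have h := mul 2 6
    simp only [Fin.sum_univ_eight] at h
    rw [hs 2 0, hs 2 1, z02, z12, z23, z24, z56, hs 7 6, z67] at h
    have h2 : P 2 6 * (1 - P 2 2 - P 6 6) = 0 := by linear_combination h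
    rcases mul_eq_zero.1 h2 with h3 | h3
    · exact absurd h3 n26
    · linarith
  have d7 : P 7 7 = 1 - P 2 2 := by
    have h := mul 2 7
    simp only [Fin.sum_univ_eight] at h
    rw [hs 2 0, hs 2 1, z02, z12, z23, z24, z57, z67] at h
    have h2 : P 2 7 * (1 - P 2 2 - P 7 7) = 0 := by linear_combination h
    rcases mul_eq_zero.1 h2 with h3 | h3
    · exact absurd h3 n27
    · linarith
  have dpos : 0 < P 5 5 := by
    have n52 : P 5 2 ≠ 0 := by rw [hs]; exact n25
    exact diag_pos hP.1 hid n52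
  -- the minor
  have hm := minor4 hr ![0, 5, 6, 7] ![1, 5, 6, 7]
  rw [Matrix.det_succ_row_zero] at hm
  simp only [Fin.sum_univ_four, Matrix.det_fin_three, Matrix.submatrix_apply, Fin.isValue,
    Matrix.cons_val_zero, Matrix.cons_val_one, Matrix.cons_val, Fin.succAbove, Fin.castSucc_zero,
    Fin.succ_zero_eq_one] at hm
  simp [Fin.succAbove, z01, z56, z57, z67, hs 6 5, hs 7 5, hs 7 6, d5, d6, d7] at hm
  have h01 := mul 0 1
  simp only [Fin.sum_univ_eight] at h01
  rw [d5] at dpos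
  have hsum : P 0 5 * P 5 1 + P 0 6 * P 6 1 + P 0 7 * P 7 1 = 0 := by
    have h1 : (P 0 5 * P 5 1 + P 0 6 * P 6 1 + P 0 7 * P 7 1) * (1 - P 2 2) ^ 2 = 0 := by
      linear_combination -hm
    rcases mul_eq_zero.1 h1 with h2 | h2
    · exact h2
    · exact absurd h2 (pow_ne_zero _ dpos.ne')
  rw [z01, hs 2 1, z02, z12, hs 3 1, z13] at h01
  have h2 : P 0 4 * P 4 1 = 0 := by linear_combination -h01 - hsum
  exact mul_ne_zero n04 n41 h2

lemma MB_G : MB G = 4 := by
  apply le_antisymm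
  · exact Nat.sInf_le ⟨by norm_num, by simp, achieves_four⟩
  · refine le_csInf ⟨4, by norm_num, by simp, achieves_four⟩ ?_
    rintro k ⟨h1, h2, h3⟩
    by_contra hk
    have hk8 : k ≤ Fintype.card (Fin 8) := by
      rw [Fintype.card_fin]; omega
    obtain ⟨P, hP, hid, hr, -⟩ := proj_of_achieves hk8 h3
    exact no_small hP hid (by omega)

/-- There is a graph on 8 vertices with `q(G) = 2`, `mr₊(G) ≤ 3` and `MB(G) = 4`;
in particular `MB(G) > mr₊(G)`. -/
theorem result : ∃ G : SimpleGraph (Fin 8), q G = 2 ∧ mrp G ≤ 3 ∧ MB G = 4 :=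
  ⟨G, q_G, mrp_le, MB_G⟩

end Pool.Agent.Results.MP_558aee_co.MBLarger
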